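import Mathlib

namespace Pool.Agent.Lib.MP_cd78f9_gt

/-- The elliptic space `𝓔_n`: the lines through the origin in `ℝ^n`. -/
abbrev EllipticSpace (n : ℕ) : Type := Projectivization ℝ (EuclideanSpace ℝ (Fin n))

/-- The elliptic distance: the smallest angle between nonzero vectors `u` of the line `x` and `v`
of the line `y`. -/
noncomputable def ellipticDist {n : ℕ} (x y : EllipticSpace n) : ℝ :=
  sInf {θ : ℝ | ∃ u v : EuclideanSpace ℝ (Fin n), u ≠ 0 ∧ v ≠ 0 ∧ u ∈ x.submodule ∧
    v ∈ y.submodule ∧ θ = InnerProductGeometry.angle u v}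

/-- Continuity of a map from the elliptic space (with the elliptic distance) to `ℝ^m`. -/
def IsContinuousMap {n m : ℕ} (φ : EllipticSpace n → EuclideanSpace ℝ (Fin m)) : Prop :=
  ∀ x, ∀ ε > 0, ∃ δ > 0, ∀ y, ellipticDist x y < δ → dist (φ x) (φ y) < ε

/-- `φ` preserves the set of diameters: `φ x` and `φ y` realise the diameter of the image of `φ`
if and only if the lines `x` and `y` are orthogonal, i.e. at elliptic distance `π / 2`. -/
def PreservesDiameters {n m : ℕ} (φ : EllipticSpace n → EuclideanSpace ℝ (Fin m)) : Prop :=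
  ∀ x y, ‖φ x - φ y‖ = Metric.diam (Set.range φ) ↔ ellipticDist x y = Real.pi / 2

end Pool.Agent.Lib.MP_cd78f9_gt
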