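import Pool.Agent.Lib.Topology38.Brouwer
import Pool.Agent.Lib.MP_cd78f9_gt.Defs

section

open Set Metric Topology

namespace Pool.Agent.Lib.Topology38

/-- **Invariance of dimension**: an injective continuous map from a nonempty open subset of a
finite-dimensional normed space `E` to a finite-dimensional normed space `F` can only exist when
`dim E ≤ dim F`. -/
theorem finrank_le_of_injOn_isOpen {E F : Type*} [NormedAddCommGroup E] [NormedSpace ℝ E]
    [FiniteDimensional ℝ E] [NormedAddCommGroup F] [NormedSpace ℝ F] [FiniteDimensional ℝ F]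
    {U : Set E} (hU : IsOpen U) (hne : U.Nonempty) {f : E → F} (hf : ContinuousOn f U)
    (hinj : InjOn f U) : Module.finrank ℝ E ≤ Module.finrank ℝ F := by
  by_contra hlt
  push Not at hlt
  obtain ⟨x, hx⟩ := hne
  set E' := EuclideanSpace ℝ (Fin (Module.finrank ℝ E))
  let e : E' ≃L[ℝ] E := ContinuousLinearEquiv.ofFinrankEq (by simp [E'])
  set k : E' → E := fun y => x + e y with hk
  have hkc : Continuous k := by fun_prop
  have hki : Function.Injective k := by
    intro a b hab
    simp only [hk, add_right_inj] at hab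
    exact e.injective hab
  have hopen : IsOpen (k ⁻¹' U) := hU.preimage hkc
  have h0 : (0 : E') ∈ k ⁻¹' U := by simp [hk, hx]
  obtain ⟨δ, hδ, hball⟩ := Metric.isOpen_iff.mp hopen 0 h0
  have hδ2 : (0:ℝ) < δ / 2 := by positivity
  have hmaps : ∀ y ∈ closedBall (0:E') 1, k ((δ/2) • y) ∈ U := by
    intro y hy
    have : (δ/2) • y ∈ ball (0:E') δ := by
      rw [mem_ball_zero_iff, norm_smul, Real.norm_eq_abs, abs_of_pos hδ2]
      rw [mem_closedBall_zero_iff] at hy
      calc δ / 2 * ‖y‖ ≤ δ / 2 * 1 := by gcongr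
        _ < δ := by linarith
    exact hball this
  apply not_injOn_closedBall (E := E') (F := F) (f := fun y => f (k ((δ/2) • y)))
  · simpa [E'] using hlt
  · apply hf.comp (t := U)
    · apply Continuous.continuousOn
      fun_prop
    · exact hmaps
  · intro a ha b hb hab
    have h1 := hinj (hmaps a ha) (hmaps b hb) hab
    have h2 := hki h1
    exact smul_right_injective _ hδ2.ne' h2

end Pool.Agent.Lib.Topology38
end

section

open Set Metric Topology Module

namespace Pool.Agent.Lib.MP_cd78f9_gt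

variable {E V : Type*} [NormedAddCommGroup E] [InnerProductSpace ℝ E] [FiniteDimensional ℝ E]
  [NormedAddCommGroup V] [NormedSpace ℝ V] [FiniteDimensional ℝ V]

/-- The data of a continuous map `Φ` on nonzero vectors of `E` together with supporting linear
functionals `ℓ x` that vanish at `Φ y` exactly when `x ⟂ y`. -/
structure FaceData (Φ : E → V) (ℓ : E → V →ₗ[ℝ] ℝ) : Prop where
  cont : ∀ x, x ≠ 0 → ContinuousAt Φ x
  nonneg : ∀ x y, x ≠ 0 → y ≠ 0 → 0 ≤ ℓ x (Φ y)
  eq_zero_iff : ∀ x y, x ≠ 0 → y ≠ 0 → (ℓ x (Φ y) = 0 ↔ inner ℝ x y = 0)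

/-- The span of the images of the nonzero vectors of `L`. -/
def W (Φ : E → V) (L : Submodule ℝ E) : Submodule ℝ V :=
  Submodule.span ℝ (Φ '' {y | y ∈ L ∧ y ≠ 0})

omit [FiniteDimensional ℝ E] [FiniteDimensional ℝ V] in
lemma mem_W (Φ : E → V) {L : Submodule ℝ E} {y : E} (hy : y ∈ L) (hy0 : y ≠ 0) :
    Φ y ∈ W Φ L := Submodule.subset_span ⟨y, ⟨hy, hy0⟩, rfl⟩

lemma exists_indep {E : Type*} (Φ : E → V) (s : Set E) :
    ∃ y : Fin (finrank ℝ (Submodule.span ℝ (Φ '' s))) → E, (∀ i, y i ∈ s) ∧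
      LinearIndependent ℝ (fun i => Φ (y i)) := by
  obtain ⟨b, hbs, hspan, hli⟩ := exists_linearIndependent ℝ (Φ '' s)
  have hfin : b.Finite := hli.setFinite
  have : Fintype b := hfin.fintype
  have hcard : Fintype.card b = finrank ℝ (Submodule.span ℝ (Φ '' s)) := by
    rw [← hspan, finrank_span_set_eq_card hli, Set.toFinset_card]
  let e : Fin (finrank ℝ (Submodule.span ℝ (Φ '' s))) ≃ b := (Fintype.equivFinOfCardEq hcard).symm
  have hch : ∀ i, ∃ y ∈ s, Φ y = (e i : V) := fun i => hbs (e i).2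
  choose y hys hy using hch
  refine ⟨y, hys, ?_⟩
  have : (fun i => Φ (y i)) = (Subtype.val : b → V) ∘ e := by
    ext i; exact hy i
  rw [this]
  exact hli.comp _ e.injective

theorem step {Φ : E → V} {ℓ : E → V →ₗ[ℝ] ℝ} (h : FaceData Φ ℓ) (L : Submodule ℝ E) (x0 : E)
    (hx0 : x0 ∈ L) (hx0' : x0 ≠ 0)
    (hmax : ∀ x ∈ L, x ≠ 0 → finrank ℝ (W Φ (L ⊓ (ℝ ∙ x)ᗮ)) ≤
      finrank ℝ (W Φ (L ⊓ (ℝ ∙ x0)ᗮ))) :
    finrank ℝ (W Φ (L ⊓ (ℝ ∙ x0)ᗮ)) + finrank ℝ L ≤ finrank ℝ (W Φ L) := by
  classical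
  set M : Submodule ℝ E := L ⊓ (ℝ ∙ x0)ᗮ with hM
  set k := finrank ℝ (W Φ M) with hk
  obtain ⟨y, hy, hli⟩ : ∃ y : Fin k → E, (∀ i, y i ∈ M ∧ y i ≠ 0) ∧
      LinearIndependent ℝ (fun i => Φ (y i)) := exists_indep Φ {y | y ∈ M ∧ y ≠ 0}
  have hmemM : ∀ z : E, z ∈ M ↔ z ∈ L ∧ inner ℝ x0 z = 0 := by
    intro z
    rw [hM, Submodule.mem_inf, Submodule.mem_orthogonal_singleton_iff_inner_right]
  have hx0n : 0 < inner ℝ x0 x0 := by
    rw [real_inner_self_eq_norm_sq]
    have := norm_pos_iff.mpr hx0'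
    positivity
  set X : M → E := fun v => x0 + (v : E) with hX
  have hX0 : ∀ v : M, inner ℝ x0 (X v) = inner ℝ x0 x0 := by
    intro v
    simp only [hX, inner_add_right, ((hmemM v).mp v.2).2, add_zero]
  have hXne : ∀ v : M, X v ≠ 0 := by
    intro v hv
    have := hX0 v
    rw [hv, inner_zero_right] at this
    linarith
  have hXL : ∀ v : M, X v ∈ L := fun v => L.add_mem hx0 ((hmemM v).mp v.2).1
  have hXpos : ∀ v : M, 0 < inner ℝ (X v) (X v) := by
    intro v
    rw [real_inner_self_eq_norm_sq]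
    have := norm_pos_iff.mpr (hXne v)
    positivity
  have hXc : Continuous X := by fun_prop
  set Y : Fin k → M → E := fun i v => y i - (inner ℝ (X v) (y i) / inner ℝ (X v) (X v)) • X v
    with hY
  have hYc : ∀ i, Continuous (Y i) := by
    intro i
    simp only [hY]
    have h1 : Continuous (fun v => inner ℝ (X v) (y i) / inner ℝ (X v) (X v)) :=
      (by fun_prop : Continuous fun v => inner ℝ (X v) (y i)).div₀ (by fun_prop)
        (fun v => (hXpos v).ne')
    fun_prop
  have hYorth : ∀ i v, inner ℝ (X v) (Y i v) = 0 := by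
    intro i v
    simp only [hY, inner_sub_right, inner_smul_right]
    have := (hXpos v).ne'
    field_simp
    ring
  have hYL : ∀ i v, Y i v ∈ L := by
    intro i v
    simp only [hY]
    exact L.sub_mem ((hmemM _).mp (hy i).1).1 (L.smul_mem _ (hXL v))
  have hY0 : ∀ i, Y i 0 = y i := by
    intro i
    have : inner ℝ x0 (y i) = 0 := ((hmemM _).mp (hy i).1).2
    simp [hY, hX, this]
  have hev : ∀ᶠ v in 𝓝 (0 : M), (∀ i, Y i v ≠ 0) ∧ LinearIndependent ℝ (fun i => Φ (Y i v)) := by
    apply Filter.Eventually.and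
    · rw [Filter.eventually_all]
      intro i
      apply (hYc i).continuousAt.eventually_ne
      rw [hY0]; exact (hy i).2
    · have hc : ContinuousAt (fun v : M => (fun i => Φ (Y i v))) 0 := by
        rw [continuousAt_pi]
        intro i
        apply ContinuousAt.comp (g := Φ) (f := Y i)
        · rw [hY0]; exact h.cont _ (hy i).2
        · exact (hYc i).continuousAt
      have hopen : IsOpen {f : Fin k → V | LinearIndependent ℝ f} :=
        isOpen_setOfPred_linearIndependent
      have hmem : {f : Fin k → V | LinearIndependent ℝ f} ∈ 𝓝 (fun i => Φ (Y i 0)) := by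
        apply hopen.mem_nhds
        simp only [hY0]
        exact hli
      exact hc.eventually_mem hmem
  obtain ⟨U0, hU0, hU0o, h0U0⟩ := _root_.eventually_nhds_iff.mp hev
  -- the domain
  set U : Set (M × (Fin k → ℝ) × ℝ) := {p | p.1 ∈ U0 ∧ ∀ i, 0 < p.2.1 i} with hU
  have hUo : IsOpen U := by
    have h1 : IsOpen {p : M × (Fin k → ℝ) × ℝ | p.1 ∈ U0} := hU0o.preimage continuous_fst
    have h2 : IsOpen {p : M × (Fin k → ℝ) × ℝ | ∀ i, 0 < p.2.1 i} := by
      simp only [Set.ofPred_forall]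
      apply isOpen_iInter_of_finite
      intro i
      exact isOpen_lt continuous_const (by fun_prop)
    exact h1.inter h2
  have hUne : U.Nonempty := ⟨(0, fun _ => 1, 0), h0U0, fun _ => one_pos⟩
  obtain ⟨π, hπ⟩ := LinearMap.exists_leftInverse_of_injective (W Φ L).subtype
    (Submodule.ker_subtype _)
  set Ψ : M × (Fin k → ℝ) × ℝ → V := fun p => ∑ i, p.2.1 i • Φ (Y i p.1) + p.2.2 • Φ x0 with hΨ
  have hΨW : ∀ p ∈ U, Ψ p ∈ W Φ L := by
    intro p hp
    apply Submodule.add_mem
    · apply Submodule.sum_mem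
      intro i _
      exact Submodule.smul_mem _ _ (mem_W Φ (hYL i _) ((hU0 _ hp.1).1 i))
    · exact Submodule.smul_mem _ _ (mem_W Φ hx0 hx0')
  have hΨc : ContinuousOn Ψ U := by
    intro p hp
    apply ContinuousAt.continuousWithinAt
    simp only [hΨ]
    have h1 : ∀ i, ContinuousAt (fun p : M × (Fin k → ℝ) × ℝ => Φ (Y i p.1)) p := by
      intro i
      apply ContinuousAt.comp (g := Φ) (f := fun p : M × (Fin k → ℝ) × ℝ => Y i p.1)
      · exact h.cont _ ((hU0 _ hp.1).1 i)
      · exact ((hYc i).comp continuous_fst).continuousAt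
    apply ContinuousAt.add
    · apply tendsto_finsetSum
      intro i _
      exact ContinuousAt.smul (by fun_prop) (h1 i)
    · fun_prop
  have hkey : ∀ p ∈ U, ∀ q ∈ U, Ψ p = Ψ q → p.2.2 ≤ q.2.2 → p = q := by
    intro p hp q hq hpq hle
    have hpos : 0 < ℓ (X p.1) (Φ x0) := by
      apply lt_of_le_of_ne (h.nonneg _ _ (hXne _) hx0')
      intro h0
      have h1 := (h.eq_zero_iff _ _ (hXne _) hx0').mp h0.symm
      rw [real_inner_comm, hX0] at h1
      linarith
    have e1 : ℓ (X p.1) (Ψ p) = p.2.2 * ℓ (X p.1) (Φ x0) := by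
      simp only [hΨ, map_add, map_sum, map_smul, smul_eq_mul]
      rw [Finset.sum_eq_zero, zero_add]
      intro i _
      rw [(h.eq_zero_iff _ _ (hXne _) ((hU0 _ hp.1).1 i)).mpr (hYorth i p.1), mul_zero]
    have e2 : ℓ (X p.1) (Ψ q) = ∑ i, q.2.1 i * ℓ (X p.1) (Φ (Y i q.1))
        + q.2.2 * ℓ (X p.1) (Φ x0) := by
      simp only [hΨ, map_add, map_sum, map_smul, smul_eq_mul]
    have hterm : ∀ i, 0 ≤ q.2.1 i * ℓ (X p.1) (Φ (Y i q.1)) := fun i =>
      mul_nonneg (hq.2 i).le (h.nonneg _ _ (hXne _) ((hU0 _ hq.1).1 i))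
    have hsum : 0 ≤ ∑ i, q.2.1 i * ℓ (X p.1) (Φ (Y i q.1)) := Finset.sum_nonneg fun i _ => hterm i
    have e3 : p.2.2 * ℓ (X p.1) (Φ x0) = ∑ i, q.2.1 i * ℓ (X p.1) (Φ (Y i q.1))
        + q.2.2 * ℓ (X p.1) (Φ x0) := by rw [← e1, ← e2, hpq]
    have hmul : p.2.2 * ℓ (X p.1) (Φ x0) ≤ q.2.2 * ℓ (X p.1) (Φ x0) := by gcongr
    have hsum0 : ∑ i, q.2.1 i * ℓ (X p.1) (Φ (Y i q.1)) = 0 := by linarith
    have ht : p.2.2 = q.2.2 := by
      have : p.2.2 * ℓ (X p.1) (Φ x0) = q.2.2 * ℓ (X p.1) (Φ x0) := by linarith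
      exact mul_right_cancel₀ hpos.ne' this
    have hall : ∀ i, ℓ (X p.1) (Φ (Y i q.1)) = 0 := by
      intro i
      have h1 := (Finset.sum_eq_zero_iff_of_nonneg (fun i _ => hterm i)).mp hsum0 i
        (Finset.mem_univ i)
      exact (mul_eq_zero.mp h1).resolve_left (hq.2 i).ne'
    -- the span of the `Φ (Y i q.1)` is the whole `W`
    have hspan : Submodule.span ℝ (range fun i => Φ (Y i q.1)) = W Φ (L ⊓ (ℝ ∙ (X q.1))ᗮ) := by
      apply Submodule.eq_of_le_of_finrank_le
      · rw [Submodule.span_le]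
        rintro _ ⟨i, rfl⟩
        apply mem_W
        · rw [Submodule.mem_inf, Submodule.mem_orthogonal_singleton_iff_inner_right]
          exact ⟨hYL i _, hYorth i _⟩
        · exact (hU0 _ hq.1).1 i
      · rw [finrank_span_eq_card (hU0 _ hq.1).2, Fintype.card_fin]
        exact hmax _ (hXL _) (hXne _)
    have hker : ∀ w ∈ W Φ (L ⊓ (ℝ ∙ (X q.1))ᗮ), ℓ (X p.1) w = 0 := by
      rw [← hspan]
      intro w hw
      have : Submodule.span ℝ (range fun i => Φ (Y i q.1)) ≤ LinearMap.ker (ℓ (X p.1)) := by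
        rw [Submodule.span_le]
        rintro _ ⟨i, rfl⟩
        exact hall i
      exact this hw
    -- conclude that the two directions are equal
    set z : E := X p.1 - (inner ℝ (X q.1) (X p.1) / inner ℝ (X q.1) (X q.1)) • X q.1 with hz
    have hz1 : inner ℝ (X q.1) z = 0 := by
      simp only [hz, inner_sub_right, inner_smul_right]
      have := (hXpos q.1).ne'
      field_simp
      ring
    have hz0 : z = 0 := by
      by_contra hzne
      have hzL : z ∈ L ⊓ (ℝ ∙ (X q.1))ᗮ := by
        rw [Submodule.mem_inf, Submodule.mem_orthogonal_singleton_iff_inner_right]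
        exact ⟨L.sub_mem (hXL _) (L.smul_mem _ (hXL _)), hz1⟩
      have h1 := hker _ (mem_W Φ hzL hzne)
      have h2 := (h.eq_zero_iff _ _ (hXne _) hzne).mp h1
      have h3 : inner ℝ z z = 0 := by
        nth_rewrite 1 [hz]
        rw [inner_sub_left, inner_smul_left, hz1, h2]
        simp
      exact hzne (inner_self_eq_zero.mp h3)
    set c := inner ℝ (X q.1) (X p.1) / inner ℝ (X q.1) (X q.1) with hc
    have hXX : X p.1 = c • X q.1 := sub_eq_zero.mp hz0
    have hc1 : c = 1 := by
      have h1 := congrArg (fun w => inner ℝ x0 w) hXX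
      simp only [inner_smul_right, hX0] at h1
      have : (c - 1) * inner ℝ x0 x0 = 0 := by linarith
      have := (mul_eq_zero.mp this).resolve_right hx0n.ne'
      linarith
    have hvv : p.1 = q.1 := by
      rw [hc1, one_smul] at hXX
      simp only [hX, add_right_inj] at hXX
      exact Subtype.ext hXX
    have hcc : p.2.1 = q.2.1 := by
      have h1 : ∑ i, (p.2.1 i - q.2.1 i) • Φ (Y i q.1) = 0 := by
        have h2 : ∑ i, p.2.1 i • Φ (Y i p.1) + p.2.2 • Φ x0
          = ∑ i, q.2.1 i • Φ (Y i q.1) + q.2.2 • Φ x0 := hpq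
        rw [ht, hvv] at h2
        have h3 := add_right_cancel h2
        simp only [sub_smul, Finset.sum_sub_distrib, h3, sub_self]
      have h4 := Fintype.linearIndependent_iff.mp (hU0 _ hq.1).2 _ h1
      ext i
      have := h4 i
      linarith
    exact Prod.ext hvv (Prod.ext hcc ht)
  have hinj : InjOn Ψ U := by
    intro p hp q hq hpq
    rcases le_total p.2.2 q.2.2 with hle | hle
    · exact hkey p hp q hq hpq hle
    · exact (hkey q hq p hp hpq.symm hle).symm
  have hπW : ∀ w (hw : w ∈ W Φ L), ((π w : W Φ L) : V) = w := by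
    intro w hw
    have := congrArg (fun (f : W Φ L →ₗ[ℝ] W Φ L) => f ⟨w, hw⟩) hπ
    simp at this
    rw [this]
  have hfin := Topology38.finrank_le_of_injOn_isOpen (E := M × (Fin k → ℝ) × ℝ) (F := W Φ L)
    hUo hUne (f := fun p => π (Ψ p)) (by
      have : Continuous π := LinearMap.continuous_of_finiteDimensional π
      exact this.comp_continuousOn hΨc) (by
      intro p hp q hq hpq
      apply hinj hp hq
      rw [← hπW _ (hΨW p hp), ← hπW _ (hΨW q hq)]
      exact congrArg _ hpq)
  have hfM : finrank ℝ M + 1 = finrank ℝ L := by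
    have h1 : (ℝ ∙ x0) ≤ L := by
      rw [Submodule.span_singleton_le_iff_mem]; exact hx0
    have h2 := Submodule.finrank_add_inf_finrank_orthogonal h1
    rw [finrank_span_singleton hx0'] at h2
    rw [hM, inf_comm]
    omega
  rw [Module.finrank_prod, Module.finrank_prod, Module.finrank_fin_fun, Module.finrank_self] at hfin
  omega

theorem step_all {Φ : E → V} {ℓ : E → V →ₗ[ℝ] ℝ} (h : FaceData Φ ℓ) (L : Submodule ℝ E) (x : E)
    (hx : x ∈ L) (hx' : x ≠ 0) :
    finrank ℝ (W Φ (L ⊓ (ℝ ∙ x)ᗮ)) + finrank ℝ L ≤ finrank ℝ (W Φ L) := by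
  set S : Set ℕ := {n | ∃ z ∈ L, z ≠ 0 ∧ finrank ℝ (W Φ (L ⊓ (ℝ ∙ z)ᗮ)) = n} with hS
  have hne : S.Nonempty := ⟨_, x, hx, hx', rfl⟩
  have hbdd : BddAbove S := by
    refine ⟨finrank ℝ V, ?_⟩
    rintro _ ⟨z, _, _, rfl⟩
    exact Submodule.finrank_le _
  obtain ⟨x0, hx0, hx0', hx0S⟩ := Nat.sSup_mem hne hbdd
  have hle : ∀ z ∈ L, z ≠ 0 → finrank ℝ (W Φ (L ⊓ (ℝ ∙ z)ᗮ)) ≤
      finrank ℝ (W Φ (L ⊓ (ℝ ∙ x0)ᗮ)) := by
    intro z hz hz'
    rw [hx0S]
    exact le_csSup hbdd ⟨z, hz, hz', rfl⟩
  exact le_trans (Nat.add_le_add_right (hle x hx hx') _) (step h L x0 hx0 hx0' hle)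

/-- The triangular number bound. -/
theorem lower_bound {Φ : E → V} {ℓ : E → V →ₗ[ℝ] ℝ} (h : FaceData Φ ℓ) :
    ∀ (n : ℕ) (L : Submodule ℝ E), finrank ℝ L = n → n * (n + 1) / 2 ≤ finrank ℝ (W Φ L) := by
  intro n
  induction n with
  | zero => intro L _; simp
  | succ n ih =>
    intro L hL
    have hpos : 0 < finrank ℝ L := by omega
    have : Nontrivial L := Module.finrank_pos_iff.mp hpos
    obtain ⟨⟨x, hx⟩, hx'⟩ := exists_ne (0 : L)
    have hx0 : x ≠ 0 := fun h0 => hx' (Subtype.ext h0)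
    have h1 := step_all h L x hx hx0
    have h2 : finrank ℝ (L ⊓ (ℝ ∙ x)ᗮ : Submodule ℝ E) + 1 = finrank ℝ L := by
      have h1 : (ℝ ∙ x) ≤ L := by
        rw [Submodule.span_singleton_le_iff_mem]; exact hx
      have h2 := Submodule.finrank_add_inf_finrank_orthogonal h1
      rw [finrank_span_singleton hx0] at h2
      rw [inf_comm]
      omega
    have h3 := ih (L ⊓ (ℝ ∙ x)ᗮ) (by omega)
    have h4 : (n + 1) * (n + 1 + 1) / 2 = n * (n + 1) / 2 + (n + 1) := by
      have : (n + 1) * (n + 1 + 1) = n * (n + 1) + (n + 1) * 2 := by ring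
      rw [this, Nat.add_mul_div_right _ _ (by norm_num)]
    rw [h4]
    omega

/-- If the total span has the minimal possible dimension, so does the span of every subspace. -/
theorem upper_bound_of_top {Φ : E → V} {ℓ : E → V →ₗ[ℝ] ℝ} (h : FaceData Φ ℓ)
    (htop : finrank ℝ (W Φ ⊤) ≤ finrank ℝ E * (finrank ℝ E + 1) / 2) :
    ∀ (k : ℕ) (L : Submodule ℝ E), finrank ℝ L + k = finrank ℝ E →
      finrank ℝ (W Φ L) ≤ finrank ℝ L * (finrank ℝ L + 1) / 2 := by
  intro k
  induction k with
  | zero =>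
    intro L hL
    have : L = ⊤ := Submodule.eq_top_of_finrank_eq (by simpa using hL)
    subst this
    simpa using htop
  | succ k ih =>
    intro L hL
    -- choose a nonzero vector orthogonal to `L`
    have h1 := Submodule.finrank_add_finrank_orthogonal L
    have hpos : 0 < finrank ℝ Lᗮ := by omega
    have : Nontrivial Lᗮ := Module.finrank_pos_iff.mp hpos
    obtain ⟨⟨x, hx⟩, hx'⟩ := exists_ne (0 : Lᗮ)
    have hx0 : x ≠ 0 := fun h0 => hx' (Subtype.ext h0)
    set L1 : Submodule ℝ E := L ⊔ (ℝ ∙ x) with hL1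
    have hxL1 : x ∈ L1 := Submodule.mem_sup_right (Submodule.mem_span_singleton_self x)
    have hinf : L1 ⊓ (ℝ ∙ x)ᗮ = L := by
      apply le_antisymm
      · intro z hz
        rw [Submodule.mem_inf, Submodule.mem_orthogonal_singleton_iff_inner_right] at hz
        obtain ⟨hz1, hz2⟩ := hz
        rw [hL1, Submodule.mem_sup] at hz1
        obtain ⟨a, ha, b, hb, rfl⟩ := hz1
        rw [Submodule.mem_span_singleton] at hb
        obtain ⟨c, rfl⟩ := hb
        have h2 : inner ℝ x a = 0 := by
          rw [real_inner_comm]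
          exact (Submodule.mem_orthogonal L x).mp hx a ha
        rw [inner_add_right, h2, zero_add, inner_smul_right] at hz2
        have h3 : inner ℝ x x ≠ 0 := by
          rw [ne_eq, inner_self_eq_zero]; exact hx0
        have h4 : c = 0 := (mul_eq_zero.mp hz2).resolve_right h3
        simpa [h4] using ha
      · intro z hz
        rw [Submodule.mem_inf, Submodule.mem_orthogonal_singleton_iff_inner_right]
        refine ⟨Submodule.mem_sup_left hz, ?_⟩
        rw [real_inner_comm]
        exact (Submodule.mem_orthogonal L x).mp hx z hz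
    have h2 : finrank ℝ L + 1 = finrank ℝ L1 := by
      have h1 : (ℝ ∙ x) ≤ L1 := by
        rw [Submodule.span_singleton_le_iff_mem]; exact hxL1
      have h2 := Submodule.finrank_add_inf_finrank_orthogonal h1
      rw [finrank_span_singleton hx0, inf_comm, hinf] at h2
      omega
    have h3 := ih L1 (by omega)
    have h4 := step_all h L1 x hxL1 hx0
    rw [hinf] at h4
    have h5 : finrank ℝ L1 * (finrank ℝ L1 + 1) / 2 =
        finrank ℝ L * (finrank ℝ L + 1) / 2 + finrank ℝ L1 := by
      rw [← h2]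
      have : (finrank ℝ L + 1) * (finrank ℝ L + 1 + 1) =
        finrank ℝ L * (finrank ℝ L + 1) + (finrank ℝ L + 1) * 2 := by ring
      rw [this, Nat.add_mul_div_right _ _ (by norm_num)]
    omega

end Pool.Agent.Lib.MP_cd78f9_gt
end

section

open Set Metric Topology Module

namespace Pool.Agent.Lib.MP_cd78f9_gt

variable {E F : Type*} [NormedAddCommGroup E] [InnerProductSpace ℝ E] [FiniteDimensional ℝ E]
  [NormedAddCommGroup F] [InnerProductSpace ℝ F] [FiniteDimensional ℝ F]

/-- A map on nonzero vectors, invariant under scaling and continuous, such that the distance of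
images is at most `D` with equality exactly for orthogonal vectors. -/
structure DiamData (ψ : E → F) (D : ℝ) : Prop where
  cont : ∀ x, x ≠ 0 → ContinuousAt ψ x
  scale : ∀ (c : ℝ) (x : E), c ≠ 0 → x ≠ 0 → ψ (c • x) = ψ x
  le : ∀ x y, x ≠ 0 → y ≠ 0 → ‖ψ x - ψ y‖ ≤ D
  eq_iff : ∀ x y, x ≠ 0 → y ≠ 0 → (‖ψ x - ψ y‖ = D ↔ inner ℝ x y = 0)

/-- The lifting of `ψ` to the paraboloid. -/
noncomputable def lift (ψ : E → F) (x : E) : F × ℝ × ℝ := (ψ x, 1, ‖ψ x‖ ^ 2)

/-- The supporting functionals. -/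
noncomputable def func (ψ : E → F) (D : ℝ) (x : E) : F × ℝ × ℝ →ₗ[ℝ] ℝ :=
  (2 : ℝ) • ((innerSL ℝ (ψ x) : F →L[ℝ] ℝ) : F →ₗ[ℝ] ℝ).comp (LinearMap.fst ℝ F (ℝ × ℝ))
  + (D ^ 2 - ‖ψ x‖ ^ 2) • (LinearMap.fst ℝ ℝ ℝ).comp (LinearMap.snd ℝ F (ℝ × ℝ))
  - (LinearMap.snd ℝ ℝ ℝ).comp (LinearMap.snd ℝ F (ℝ × ℝ))

omit [NormedAddCommGroup E] [InnerProductSpace ℝ E] [FiniteDimensional ℝ E]
  [FiniteDimensional ℝ F] in
lemma func_apply (ψ : E → F) (D : ℝ) (x : E) (p : F × ℝ × ℝ) :
    func ψ D x p = 2 * inner ℝ (ψ x) p.1 + (D ^ 2 - ‖ψ x‖ ^ 2) * p.2.1 - p.2.2 := by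
  simp [func]

omit [NormedAddCommGroup E] [InnerProductSpace ℝ E] [FiniteDimensional ℝ E]
  [FiniteDimensional ℝ F] in
lemma func_lift (ψ : E → F) (D : ℝ) (x y : E) :
    func ψ D x (lift ψ y) = D ^ 2 - ‖ψ x - ψ y‖ ^ 2 := by
  rw [func_apply, lift, norm_sub_sq_real]
  ring

variable {ψ : E → F} {D : ℝ}

omit [InnerProductSpace ℝ F] [FiniteDimensional ℝ E] [FiniteDimensional ℝ F] in
lemma DiamData.pos (h : DiamData ψ D) {x : E} (hx : x ≠ 0) : 0 < D := by
  have h1 := h.le x x hx hx
  rw [sub_self, norm_zero] at h1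
  apply lt_of_le_of_ne h1
  intro h0
  have h2 := (h.eq_iff x x hx hx).mp (by rw [sub_self, norm_zero]; exact h0)
  exact hx (inner_self_eq_zero.mp h2)

omit [FiniteDimensional ℝ E] [FiniteDimensional ℝ F] in
lemma DiamData.faceData (h : DiamData ψ D) : FaceData (lift ψ) (func ψ D) where
  cont := by
    intro x hx
    have h1 := h.cont x hx
    unfold lift
    exact h1.prodMk (continuousAt_const.prodMk (h1.norm.pow 2))
  nonneg := by
    intro x y hx hy
    rw [func_lift]
    have h1 := h.le x y hx hy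
    have h2 := norm_nonneg (ψ x - ψ y)
    nlinarith
  eq_zero_iff := by
    intro x y hx hy
    rw [func_lift, ← h.eq_iff x y hx hy]
    have h2 := norm_nonneg (ψ x - ψ y)
    have h3 := (h.pos hx).le
    constructor
    · intro h4
      have : ‖ψ x - ψ y‖ ^ 2 = D ^ 2 := by linarith
      exact (sq_eq_sq₀ h2 h3).mp this
    · intro h4
      rw [h4]; ring

lemma finrank_V : finrank ℝ (F × ℝ × ℝ) = finrank ℝ F + 2 := by
  rw [Module.finrank_prod, Module.finrank_prod, Module.finrank_self]

/-- Weak form of the lower bound. -/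
theorem weak_lower (h : DiamData ψ D) :
    finrank ℝ E * (finrank ℝ E + 1) / 2 ≤ finrank ℝ F + 2 := by
  have h1 := lower_bound h.faceData (finrank ℝ E) ⊤ (by simp)
  rw [← finrank_V (F := F)]
  exact h1.trans (Submodule.finrank_le _)

/-- Antisymmetric functions under a shift have a zero. -/
lemma exists_zero_of_antisymm {s : ℝ → ℝ} (hs : Continuous s) {a : ℝ}
    (h : ∀ t, s (t + a) = - s t) : ∃ t, s t = 0 := by
  have h1 := h 0
  rw [zero_add] at h1
  rcases le_total 0 (s 0) with h0 | h0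
  · have := mem_range_of_exists_le_of_exists_ge hs ⟨a, by rw [h1]; linarith⟩ ⟨0, h0⟩
    simpa using this
  · have := mem_range_of_exists_le_of_exists_ge hs ⟨0, h0⟩ ⟨a, by rw [h1]; linarith⟩
    simpa using this

/-- The rotating pair of orthogonal vectors in a plane. -/
noncomputable def rot (u v : E) (t : ℝ) : E := Real.cos t • u + Real.sin t • v

omit [FiniteDimensional ℝ E] in
lemma rot_shift (u v : E) (t : ℝ) : rot u v (t + Real.pi / 2) = -Real.sin t • u + Real.cos t • v := by
  simp [rot, Real.cos_add_pi_div_two, Real.sin_add_pi_div_two]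

omit [FiniteDimensional ℝ E] in
lemma rot_shift_two (u v : E) (t : ℝ) : rot u v (t + Real.pi / 2 + Real.pi / 2) = -rot u v t := by
  rw [rot_shift, Real.cos_add_pi_div_two, Real.sin_add_pi_div_two, rot]
  simp only [neg_smul, neg_add]

omit [FiniteDimensional ℝ E] in
lemma rot_norm_sq {u v : E} (hu : ‖u‖ = 1) (hv : ‖v‖ = 1) (huv : inner ℝ u v = 0) (t : ℝ) :
    inner ℝ (rot u v t) (rot u v t) = 1 := by
  simp only [rot, inner_add_left, inner_add_right, inner_smul_left, inner_smul_right,
    real_inner_self_eq_norm_sq, hu, hv, huv, real_inner_comm u v ▸ huv]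
  simp
  nlinarith [Real.sin_sq_add_cos_sq t]

omit [FiniteDimensional ℝ E] in
lemma rot_ne_zero {u v : E} (hu : ‖u‖ = 1) (hv : ‖v‖ = 1) (huv : inner ℝ u v = 0) (t : ℝ) :
    rot u v t ≠ 0 := by
  intro h
  have := rot_norm_sq hu hv huv t
  rw [h, inner_zero_left] at this
  exact zero_ne_one this

omit [FiniteDimensional ℝ E] in
lemma rot_orth {u v : E} (hu : ‖u‖ = 1) (hv : ‖v‖ = 1) (huv : inner ℝ u v = 0) (t : ℝ) :
    inner ℝ (rot u v t) (rot u v (t + Real.pi / 2)) = 0 := by
  rw [rot_shift]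
  have hvu : inner ℝ v u = 0 := by rw [real_inner_comm]; exact huv
  simp only [rot, inner_add_left, inner_add_right, inner_smul_left, inner_smul_right,
    real_inner_self_eq_norm_sq, hu, hv, huv, hvu]
  simp
  ring

omit [FiniteDimensional ℝ E] in
lemma rot_continuous (u v : E) : Continuous (rot u v) := by
  unfold rot
  fun_prop

omit [FiniteDimensional ℝ E] in
/-- There are two orthonormal vectors in a space of dimension at least two. -/
lemma exists_orthonormal_pair (L : Submodule ℝ E) (hL : 2 ≤ finrank ℝ L) :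
    ∃ u ∈ L, ∃ v ∈ L, ‖u‖ = 1 ∧ ‖v‖ = 1 ∧ inner ℝ u v = 0 := by
  have : FiniteDimensional ℝ L := FiniteDimensional.of_finrank_pos (by omega)
  let b := stdOrthonormalBasis ℝ L
  let i : Fin (finrank ℝ L) := ⟨0, by omega⟩
  let j : Fin (finrank ℝ L) := ⟨1, by omega⟩
  have hij : i ≠ j := by simp [i, j]
  refine ⟨b i, (b i).2, b j, (b j).2, ?_, ?_, ?_⟩
  · exact b.orthonormal.1 i
  · exact b.orthonormal.1 j
  · have := b.orthonormal.2 hij
    simpa using this

omit [FiniteDimensional ℝ E] in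
/-- In dimension at least two the target cannot be a line. -/
theorem two_le_finrank (h : DiamData ψ D) (hE : 2 ≤ finrank ℝ E) : 2 ≤ finrank ℝ F := by
  by_contra hlt
  have hF : finrank ℝ F ≤ 1 := by omega
  obtain ⟨v0, hv0⟩ := finrank_le_one_iff.mp hF
  obtain ⟨u, -, v, -, hu, hv, huv⟩ := exists_orthonormal_pair (E := E) ⊤ (by simpa using hE)
  have hu0 : u ≠ 0 := by
    intro h0; rw [h0, norm_zero] at hu; exact zero_ne_one hu
  have hD := h.pos hu0
  set s : ℝ → F := fun t => ψ (rot u v t) - ψ (rot u v (t + Real.pi / 2)) with hs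
  have hψc : Continuous (fun t => ψ (rot u v t)) := by
    rw [continuous_iff_continuousAt]
    intro t
    exact ContinuousAt.comp (h.cont _ (rot_ne_zero hu hv huv t)) (rot_continuous u v).continuousAt
  have hsc : Continuous s := by
    apply hψc.sub
    exact hψc.comp (continuous_add_const (Real.pi / 2))
  have hanti : ∀ t, s (t + Real.pi / 2) = - s t := by
    intro t
    have h1 : ψ (rot u v (t + Real.pi / 2 + Real.pi / 2)) = ψ (rot u v t) := by
      rw [rot_shift_two, ← neg_one_smul ℝ]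
      exact h.scale _ _ (by norm_num) (rot_ne_zero hu hv huv t)
    simp only [hs, h1]
    abel
  have hnorm : ∀ t, ‖s t‖ = D := fun t =>
    (h.eq_iff _ _ (rot_ne_zero hu hv huv t) (rot_ne_zero hu hv huv _)).mpr (rot_orth hu hv huv t)
  obtain ⟨t, ht⟩ := exists_zero_of_antisymm (s := fun t => inner ℝ v0 (s t)) (by fun_prop)
    (a := Real.pi / 2) (by
      intro t
      simp only [hanti, inner_neg_right])
  obtain ⟨c, hc⟩ := hv0 (s t)
  have h2 : inner ℝ (s t) (s t) = 0 := by
    nth_rewrite 1 [← hc]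
    rw [inner_smul_left]
    rw [ht, mul_zero]
  rw [real_inner_self_eq_norm_sq, hnorm t] at h2
  nlinarith

lemma circle_algebra {p q r s ρ D2 : ℝ} (e1 : ρ = p ^ 2 + q ^ 2) (e2 : ρ = r ^ 2 + s ^ 2)
    (e3 : D2 = (p - r) ^ 2 + (q - s) ^ 2) (hdet : p * s - q * r = 0) (hD : 0 < D2) :
    D2 = 4 * ρ := by
  have hk : (p * r + q * s) ^ 2 = ρ ^ 2 := by
    have h1 : (p * r + q * s) ^ 2 = (p ^ 2 + q ^ 2) * (r ^ 2 + s ^ 2) - (p * s - q * r) ^ 2 := by
      ring
    rw [h1, hdet, ← e1, ← e2]; ring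
  have hD2 : D2 = 2 * ρ - 2 * (p * r + q * s) := by
    rw [e3]
    linear_combination (-1 : ℝ) * e1 + (-1 : ℝ) * e2
  rcases sq_eq_sq_iff_eq_or_eq_neg.mp hk with h4 | h4
  · rw [h4] at hD2; linarith
  · rw [h4] at hD2; linarith

/-- The key plane lemma: if the span `W` of a plane `L` has dimension at most three, and there is a
vector orthogonal to `L`, then the images of orthogonal vectors of `L` are antipodal on a fixed
circle. -/
theorem plane_lemma (h : DiamData ψ D) (L : Submodule ℝ E) (hL : finrank ℝ L = 2)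
    (hW : finrank ℝ (W (lift ψ) L) ≤ 3) {x : E} (hx : x ≠ 0) (hxL : ∀ y ∈ L, inner ℝ x y = 0) :
    ∃ c : F, ∀ y ∈ L, ∀ z ∈ L, y ≠ 0 → z ≠ 0 → inner ℝ y z = 0 → ψ y + ψ z = (2 : ℝ) • c := by
  have hfd := h.faceData
  have hW3 : finrank ℝ (W (lift ψ) L) = 3 := by
    have := lower_bound hfd 2 L hL
    omega
  obtain ⟨u, huL, v, hvL, hu, hv, huv⟩ := exists_orthonormal_pair L (by omega)
  have hu0 : u ≠ 0 := by
    intro h0; rw [h0, norm_zero] at hu; exact zero_ne_one hu
  have hD := h.pos hx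
  -- the functional of `x` vanishes on `W`
  have hvan : ∀ w ∈ W (lift ψ) L, func ψ D x w = 0 := by
    intro w hw
    have : W (lift ψ) L ≤ LinearMap.ker (func ψ D x) := by
      rw [W, Submodule.span_le]
      rintro _ ⟨y, ⟨hy, hy0⟩, rfl⟩
      exact (hfd.eq_zero_iff x y hx hy0).mpr (hxL y hy)
    exact this hw
  -- the direction space
  set T : W (lift ψ) L →ₗ[ℝ] ℝ :=
    ((LinearMap.fst ℝ ℝ ℝ).comp (LinearMap.snd ℝ F (ℝ × ℝ))).comp (W (lift ψ) L).subtype with hT
  have hTu : T ⟨lift ψ u, mem_W _ huL hu0⟩ = 1 := by simp [hT, lift]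
  have hTsurj : Function.Surjective T := by
    intro r
    refine ⟨r • ⟨lift ψ u, mem_W _ huL hu0⟩, ?_⟩
    rw [map_smul, hTu]; simp
  have hkerT : finrank ℝ (LinearMap.ker T) = 2 := by
    have h1 := LinearMap.finrank_range_add_finrank_ker T
    rw [LinearMap.range_eq_top.mpr hTsurj, finrank_top, Module.finrank_self, hW3] at h1
    omega
  set j : LinearMap.ker T →ₗ[ℝ] F :=
    ((LinearMap.fst ℝ F (ℝ × ℝ)).comp (W (lift ψ) L).subtype).comp (LinearMap.ker T).subtype
    with hj
  have hjinj : Function.Injective j := by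
    rw [← LinearMap.ker_eq_bot, LinearMap.ker_eq_bot']
    rintro ⟨⟨⟨p, s, r⟩, hw⟩, hk⟩ hjw
    have hp : p = 0 := by simpa [hj] using hjw
    have hs : s = 0 := by simpa [hT] using hk
    have h1 := hvan _ hw
    rw [func_apply] at h1
    simp only [hp, hs, inner_zero_right, mul_zero, zero_add, zero_sub, neg_eq_zero] at h1
    subst hp hs h1
    rfl
  set P : Submodule ℝ F := LinearMap.range j with hP
  have hP2 : finrank ℝ P = 2 := by
    rw [hP, LinearMap.finrank_range_of_inj hjinj, hkerT]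
  -- the differences lie in `P`
  have hdiff : ∀ y ∈ L, y ≠ 0 → ψ y - ψ u ∈ P := by
    intro y hy hy0
    have hmem : lift ψ y - lift ψ u ∈ W (lift ψ) L :=
      Submodule.sub_mem _ (mem_W _ hy hy0) (mem_W _ huL hu0)
    refine ⟨⟨⟨lift ψ y - lift ψ u, hmem⟩, ?_⟩, ?_⟩
    · simp [hT, lift]
    · simp [hj, lift]
  -- the centre
  set c : F := ψ u + P.starProjection (ψ x - ψ u) with hc
  have hcy : ∀ y ∈ L, y ≠ 0 → ψ y - c ∈ P := by
    intro y hy hy0
    have : ψ y - c = (ψ y - ψ u) - P.starProjection (ψ x - ψ u) := by rw [hc]; abel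
    rw [this]
    exact P.sub_mem (hdiff y hy hy0) (Submodule.starProjection_apply_mem _ _)
  have hcx : ψ x - c ∈ Pᗮ := by
    have : ψ x - c = (ψ x - ψ u) - P.starProjection (ψ x - ψ u) := by rw [hc]; abel
    rw [this]
    exact Submodule.sub_starProjection_mem_orthogonal _
  have hrad : ∀ y ∈ L, y ≠ 0 → ‖ψ y - c‖ ^ 2 = D ^ 2 - ‖ψ x - c‖ ^ 2 := by
    intro y hy hy0
    have h1 : ‖ψ x - ψ y‖ = D := (h.eq_iff x y hx hy0).mpr (hxL y hy)
    have h2 : ψ x - ψ y = (ψ x - c) - (ψ y - c) := by abel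
    have h3 : inner ℝ (ψ x - c) (ψ y - c) = 0 := by
      rw [real_inner_comm]
      exact (Submodule.mem_orthogonal P _).mp hcx _ (hcy y hy hy0)
    rw [h2] at h1
    have h4 := norm_sub_sq_real (ψ x - c) (ψ y - c)
    rw [h1, h3] at h4
    linarith
  set ρ2 := D ^ 2 - ‖ψ x - c‖ ^ 2 with hρ2
  -- coordinates
  let b : OrthonormalBasis (Fin 2) ℝ P := (stdOrthonormalBasis ℝ P).reindex (finCongr hP2)
  set co : Fin 2 → F → ℝ := fun i w => inner ℝ (b i : F) w with hco
  have hnormco : ∀ w ∈ P, ‖w‖ ^ 2 = co 0 w ^ 2 + co 1 w ^ 2 := by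
    intro w hw
    have h1 := b.sum_sq_norm_inner_right ⟨w, hw⟩
    rw [Fin.sum_univ_two] at h1
    simp only [Real.norm_eq_abs, sq_abs] at h1
    have h2 : ‖(⟨w, hw⟩ : P)‖ = ‖w‖ := rfl
    rw [h2] at h1
    rw [← h1]
    rfl
  -- the rotating curve
  set g : ℝ → F := fun t => ψ (rot u v t) - c with hg
  have hrotL : ∀ t, rot u v t ∈ L := fun t => L.add_mem (L.smul_mem _ huL) (L.smul_mem _ hvL)
  have hgP : ∀ t, g t ∈ P := fun t => hcy _ (hrotL t) (rot_ne_zero hu hv huv t)
  have hgc : Continuous g := by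
    have hψc : Continuous (fun t => ψ (rot u v t)) := by
      rw [continuous_iff_continuousAt]
      intro t
      exact ContinuousAt.comp (h.cont _ (rot_ne_zero hu hv huv t)) (rot_continuous u v).continuousAt
    exact hψc.sub continuous_const
  have hg2 : ∀ t, g (t + Real.pi / 2 + Real.pi / 2) = g t := by
    intro t
    have h1 : ψ (rot u v (t + Real.pi / 2 + Real.pi / 2)) = ψ (rot u v t) := by
      rw [rot_shift_two, ← neg_one_smul ℝ]
      exact h.scale _ _ (by norm_num) (rot_ne_zero hu hv huv t)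
    simp only [hg, h1]
  have hcoc : ∀ i, Continuous (co i) := by
    intro i; simp only [hco]; fun_prop
  obtain ⟨t0, ht0⟩ := exists_zero_of_antisymm
    (s := fun t => co 0 (g t) * co 1 (g (t + Real.pi / 2)) - co 1 (g t) * co 0 (g (t + Real.pi / 2)))
    (by
      have h1 : Continuous fun t => g (t + Real.pi / 2) :=
        hgc.comp (continuous_add_const (Real.pi / 2))
      exact (((hcoc 0).comp hgc).mul ((hcoc 1).comp h1)).sub
        (((hcoc 1).comp hgc).mul ((hcoc 0).comp h1)))
    (a := Real.pi / 2) (by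
      intro t
      simp only [hg2]
      ring)
  -- at `t0` the two points are antipodal, so `D = 2 ρ`
  have hDρ : D ^ 2 = 4 * ρ2 := by
    set a := g t0 with ha
    set a' := g (t0 + Real.pi / 2) with ha'
    have h1 : ‖a‖ ^ 2 = ρ2 := hrad _ (hrotL _) (rot_ne_zero hu hv huv _)
    have h2 : ‖a'‖ ^ 2 = ρ2 := hrad _ (hrotL _) (rot_ne_zero hu hv huv _)
    have h3 : ‖a - a'‖ = D := by
      have : a - a' = ψ (rot u v t0) - ψ (rot u v (t0 + Real.pi / 2)) := by
        simp only [ha, ha', hg]; abel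
      rw [this]
      exact (h.eq_iff _ _ (rot_ne_zero hu hv huv _) (rot_ne_zero hu hv huv _)).mpr
        (rot_orth hu hv huv t0)
    have e1 := hnormco a (hgP _)
    have e2 := hnormco a' (hgP _)
    have e3 := hnormco (a - a') (P.sub_mem (hgP _) (hgP _))
    have hsub : ∀ i, co i (a - a') = co i a - co i a' := fun i => by
      simp only [hco, inner_sub_right]
    rw [hsub, hsub, h3] at e3
    rw [h1] at e1
    rw [h2] at e2
    exact circle_algebra e1 e2 e3 ht0 (by positivity)
  refine ⟨c, ?_⟩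
  intro y hy z hz hy0 hz0 hyz
  have h1 := hrad y hy hy0
  have h2 := hrad z hz hz0
  have h3 : ‖ψ y - ψ z‖ = D := (h.eq_iff y z hy0 hz0).mpr hyz
  have h4 : ψ y - ψ z = (ψ y - c) - (ψ z - c) := by abel
  rw [h4] at h3
  have h5 := parallelogram_law_with_norm ℝ (ψ y - c) (ψ z - c)
  have h6 : ‖(ψ y - c) + (ψ z - c)‖ ^ 2 = 0 := by
    rw [h3] at h5
    nlinarith
  have h7 : (ψ y - c) + (ψ z - c) = 0 := by
    rw [sq_eq_zero_iff, norm_eq_zero] at h6
    exact h6
  have h8 : ψ y + ψ z = ((ψ y - c) + (ψ z - c)) + (2 : ℝ) • c := by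
    rw [two_smul]; abel
  rw [h8, h7, zero_add]

/-- The kernel attached to `ψ`. -/
noncomputable def ker (ψ : E → F) (D : ℝ) (x y : E) : ℝ := D ^ 2 - ‖ψ x - ψ y‖ ^ 2

omit [InnerProductSpace ℝ F] [FiniteDimensional ℝ E] [FiniteDimensional ℝ F] in
lemma ker_eq_zero (h : DiamData ψ D) {x y : E} (hx : x ≠ 0) (hy : y ≠ 0) (hxy : inner ℝ x y = 0) :
    ker ψ D x y = 0 := by
  rw [ker, (h.eq_iff x y hx hy).mpr hxy, sub_self]

omit [FiniteDimensional ℝ E] [FiniteDimensional ℝ F] in
/-- The kernel is additive along orthogonal pairs of a plane. -/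
lemma ker_add (h : DiamData ψ D) {c : F} {x y z : E} (hy0 : y ≠ 0) (hz0 : z ≠ 0)
    (hyz : inner ℝ y z = 0) (hc : ψ y + ψ z = (2 : ℝ) • c) :
    ker ψ D x y + ker ψ D x z = 3 / 2 * D ^ 2 - 2 * ‖ψ x - c‖ ^ 2 := by
  have h3 : ‖ψ y - ψ z‖ = D := (h.eq_iff y z hy0 hz0).mpr hyz
  have h5 := parallelogram_law_with_norm ℝ (ψ x - ψ y) (ψ x - ψ z)
  have h6 : (ψ x - ψ y) + (ψ x - ψ z) = (2 : ℝ) • (ψ x - c) := by
    rw [smul_sub, ← hc, two_smul]; abel
  have h7 : (ψ x - ψ y) - (ψ x - ψ z) = -(ψ y - ψ z) := by abel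
  rw [h6, h7, norm_neg, h3, norm_smul] at h5
  simp only [Real.norm_ofNat] at h5
  simp only [ker]
  nlinarith

/-- The exact lower bound for the dimension of the target. -/
theorem exact_lower (h : DiamData ψ D) (hE : 2 ≤ finrank ℝ E) :
    finrank ℝ E * (finrank ℝ E + 1) / 2 ≤ finrank ℝ F + 1 := by
  classical
  by_contra hlt
  push Not at hlt
  have h2F := two_le_finrank h hE
  set n := finrank ℝ E with hn
  have hn3 : 3 ≤ n := by
    by_contra hn3
    have : n = 2 := by omega
    rw [this] at hlt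
    omega
  have hfd := h.faceData
  have htop_le : finrank ℝ (W (lift ψ) (⊤ : Submodule ℝ E)) ≤ n * (n + 1) / 2 := by
    have h1 := Submodule.finrank_le (W (lift ψ) (⊤ : Submodule ℝ E))
    rw [finrank_V] at h1
    omega
  have htop_ge := lower_bound hfd n ⊤ (by simp [hn])
  have hWtop : W (lift ψ) (⊤ : Submodule ℝ E) = ⊤ := by
    apply Submodule.eq_top_of_finrank_eq
    have h1 := Submodule.finrank_le (W (lift ψ) (⊤ : Submodule ℝ E))
    rw [finrank_V] at h1 ⊢
    omega
  have hsub := upper_bound_of_top hfd htop_le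
  -- planes
  have hplane : ∀ y z : E, y ≠ 0 → z ≠ 0 → inner ℝ y z = 0 →
      ∃ c : F, ∀ a ∈ Submodule.span ℝ {y, z}, ∀ b ∈ Submodule.span ℝ {y, z}, a ≠ 0 → b ≠ 0 →
        inner ℝ a b = 0 → ψ a + ψ b = (2 : ℝ) • c := by
    intro y z hy hz hyz
    set L : Submodule ℝ E := Submodule.span ℝ {y, z} with hL
    have hL2 : finrank ℝ L = 2 := by
      have hli : LinearIndependent ℝ ![y, z] := by
        rw [LinearIndependent.pair_iff]
        intro s t hst
        have h1 : inner ℝ y (s • y + t • z) = 0 := by rw [hst, inner_zero_right]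
        have h2 : inner ℝ z (s • y + t • z) = 0 := by rw [hst, inner_zero_right]
        rw [inner_add_right, inner_smul_right, inner_smul_right, hyz, mul_zero, add_zero] at h1
        rw [inner_add_right, inner_smul_right, inner_smul_right, real_inner_comm, hyz, mul_zero,
          zero_add] at h2
        exact ⟨(mul_eq_zero.mp h1).resolve_right (by rw [inner_self_eq_zero]; exact hy),
          (mul_eq_zero.mp h2).resolve_right (by rw [inner_self_eq_zero]; exact hz)⟩
      have h1 := finrank_span_eq_card hli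
      have h2 : range ![y, z] = {y, z} := by simp [Set.pair_comm]
      rw [h2] at h1
      simpa using h1
    have hW3 : finrank ℝ (W (lift ψ) L) ≤ 3 := by
      have := hsub (n - 2) L (by omega)
      rw [hL2] at this
      simpa using this
    have hperp : 0 < finrank ℝ Lᗮ := by
      have := Submodule.finrank_add_finrank_orthogonal L
      omega
    have : Nontrivial Lᗮ := Module.finrank_pos_iff.mp hperp
    obtain ⟨⟨x, hx⟩, hx'⟩ := exists_ne (0 : Lᗮ)
    have hx0 : x ≠ 0 := fun h0 => hx' (Subtype.ext h0)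
    obtain ⟨c, hc⟩ := plane_lemma h L hL2 hW3 hx0 (by
      intro w hw
      rw [real_inner_comm]
      exact (Submodule.mem_orthogonal L x).mp hx w hw)
    exact ⟨c, fun a ha b hb => hc a ha b hb⟩
  -- the sum over an orthonormal basis
  let e := stdOrthonormalBasis ℝ E
  have he0 : ∀ i, e i ≠ 0 := fun i => e.orthonormal.ne_zero i
  have hsumK : ∀ x : E, x ≠ 0 → ∑ i, ker ψ D x (e i) = D ^ 2 := by
    intro x hx
    set a : Fin n → ℝ := fun i => inner ℝ (e i) x with ha
    set xs : Finset (Fin n) → E := fun S => ∑ i ∈ S, a i • e i with hxs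
    have hin1 : ∀ (S : Finset (Fin n)) (j : Fin n), j ∉ S → inner ℝ (xs S) (e j) = 0 := by
      intro S j hj
      simp only [hxs, sum_inner, inner_smul_left]
      apply Finset.sum_eq_zero
      intro i hi
      have hij : i ≠ j := fun h0 => hj (h0 ▸ hi)
      rw [e.orthonormal.2 hij, mul_zero]
    have hin2 : ∀ S : Finset (Fin n), inner ℝ x (xs S) = inner ℝ (xs S) (xs S) := by
      intro S
      have h1 : inner ℝ x (xs S) = ∑ i ∈ S, a i * a i := by
        simp only [hxs, inner_sum, inner_smul_right]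
        apply Finset.sum_congr rfl
        intro i _
        rw [real_inner_comm]
      have h2 : inner ℝ (xs S) (xs S) = ∑ i ∈ S, a i * a i := by
        simp only [hxs]
        rw [e.orthonormal.inner_sum]
        simp
        rfl
      rw [h1, h2]
    have claim : ∀ S : Finset (Fin n),
        (if xs S = 0 then 0 else ker ψ D x (xs S)) = ∑ i ∈ S, ker ψ D x (e i) := by
      intro S
      induction S using Finset.induction_on with
      | empty => simp [hxs]
      | insert j S hj ih =>
        have hxS : xs (insert j S) = a j • e j + xs S := by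
          simp only [hxs]; rw [Finset.sum_insert hj]
        rw [Finset.sum_insert hj]
        by_cases haj : a j = 0
        · have h1 : ker ψ D x (e j) = 0 := by
            apply ker_eq_zero h hx (he0 j)
            rw [real_inner_comm]; exact haj
          rw [hxS, haj, zero_smul, zero_add, h1, zero_add]
          exact ih
        · by_cases hxS0 : xs S = 0
          · rw [if_pos hxS0] at ih
            rw [← ih, add_zero, hxS, hxS0, add_zero]
            have h1 : a j • e j ≠ 0 := smul_ne_zero haj (he0 j)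
            rw [if_neg h1]
            simp only [ker]
            rw [h.scale _ _ haj (he0 j)]
          · rw [if_neg hxS0] at ih
            rw [← ih]
            have hort : inner ℝ (xs S) (e j) = 0 := hin1 S j hj
            have hort' : inner ℝ (e j) (xs S) = 0 := by rw [real_inner_comm]; exact hort
            have hejj : inner ℝ (e j) (e j) = 1 := by
              rw [real_inner_self_eq_norm_sq, e.orthonormal.1 j]; norm_num
            set N := inner ℝ (xs S) (xs S) with hN
            have hN0 : N ≠ 0 := by rw [hN, ne_eq, inner_self_eq_zero]; exact hxS0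
            set u' : E := a j • e j + xs S with hu'
            set v' : E := a j • xs S - N • e j with hv'
            have hu'0 : u' ≠ 0 := by
              intro h0
              have h1 : inner ℝ (e j) u' = 0 := by rw [h0, inner_zero_right]
              rw [hu', inner_add_right, inner_smul_right, hejj, hort', mul_one, add_zero] at h1
              exact haj h1
            have hv'0 : v' ≠ 0 := by
              intro h0
              have h1 : inner ℝ (e j) v' = 0 := by rw [h0, inner_zero_right]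
              rw [hv', inner_sub_right, inner_smul_right, inner_smul_right, hejj, hort', mul_one,
                mul_zero, zero_sub, neg_eq_zero] at h1
              exact hN0 h1
            have huv' : inner ℝ u' v' = 0 := by
              rw [hu', hv']
              simp only [inner_add_left, inner_sub_right, inner_smul_left, inner_smul_right,
                hejj, hort, hort', ← hN]
              simp
              ring
            obtain ⟨c, hc⟩ := hplane (xs S) (e j) hxS0 (he0 j) hort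
            have hm1 : xs S ∈ Submodule.span ℝ {xs S, e j} :=
              Submodule.subset_span (by simp)
            have hm2 : e j ∈ Submodule.span ℝ {xs S, e j} :=
              Submodule.subset_span (by simp)
            have hm3 : u' ∈ Submodule.span ℝ {xs S, e j} :=
              Submodule.add_mem _ (Submodule.smul_mem _ _ hm2) hm1
            have hm4 : v' ∈ Submodule.span ℝ {xs S, e j} :=
              Submodule.sub_mem _ (Submodule.smul_mem _ _ hm1) (Submodule.smul_mem _ _ hm2)
            have k1 := ker_add h (x := x) hxS0 (he0 j) hort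
              (hc _ hm1 _ hm2 hxS0 (he0 j) hort)
            have k2 := ker_add h (x := x) hu'0 hv'0 huv'
              (hc _ hm3 _ hm4 hu'0 hv'0 huv')
            have k3 : ker ψ D x v' = 0 := by
              apply ker_eq_zero h hx hv'0
              rw [hv', inner_sub_right, inner_smul_right, inner_smul_right, hin2 S, ← hN,
                real_inner_comm]
              simp only [ha]
              ring
            rw [hxS, if_neg hu'0]
            linarith
    have h1 := claim Finset.univ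
    have h2 : xs Finset.univ = x := by
      simp only [hxs, ha]
      exact e.sum_repr' x
    rw [h2, if_neg hx] at h1
    rw [← h1, ker, sub_self, norm_zero]
    ring
  -- the global linear relation
  set S : F × ℝ × ℝ := ∑ i, lift ψ (e i) with hS
  have hS2 : S.2.1 = n := by
    simp [hS, lift, Prod.fst_sum, Prod.snd_sum, hn]
  have hfS : ∀ x : E, x ≠ 0 → func ψ D x S = D ^ 2 := by
    intro x hx
    rw [hS, map_sum, ← hsumK x hx]
    apply Finset.sum_congr rfl
    intro i _
    rw [func_lift]; rfl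
  set lam : F × ℝ × ℝ →ₗ[ℝ] ℝ :=
    (2 : ℝ) • ((innerSL ℝ S.1 : F →L[ℝ] ℝ) : F →ₗ[ℝ] ℝ).comp (LinearMap.fst ℝ F (ℝ × ℝ))
    + (D ^ 2 * n - S.2.2 - D ^ 2) • (LinearMap.fst ℝ ℝ ℝ).comp (LinearMap.snd ℝ F (ℝ × ℝ))
    - (n : ℝ) • (LinearMap.snd ℝ ℝ ℝ).comp (LinearMap.snd ℝ F (ℝ × ℝ)) with hlam
  have hlam0 : ∀ x : E, x ≠ 0 → lam (lift ψ x) = 0 := by
    intro x hx
    have h1 := hfS x hx
    rw [func_apply, hS2, real_inner_comm] at h1
    simp only [hlam, lift, LinearMap.sub_apply, LinearMap.add_apply, LinearMap.smul_apply,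
      LinearMap.comp_apply, LinearMap.fst_apply, LinearMap.snd_apply,
      ContinuousLinearMap.coe_coe, innerSL_apply_apply, smul_eq_mul]
    linarith
  have hker : W (lift ψ) (⊤ : Submodule ℝ E) ≤ LinearMap.ker lam := by
    rw [W, Submodule.span_le]
    rintro _ ⟨y, ⟨_, hy0⟩, rfl⟩
    exact hlam0 y hy0
  rw [hWtop] at hker
  have h1 : lam (0, 0, 1) = 0 := hker (Submodule.mem_top)
  simp [hlam] at h1
  omega

end Pool.Agent.Lib.MP_cd78f9_gt
end

section

open Set Metric Topology Module InnerProductGeometry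

namespace Pool.Agent.Lib.MP_cd78f9_gt

variable {n m : ℕ}

lemma ellipticDist_mk (u v : EuclideanSpace ℝ (Fin n)) (hu : u ≠ 0) (hv : v ≠ 0) :
    ellipticDist (Projectivization.mk ℝ u hu) (Projectivization.mk ℝ v hv)
      = min (angle u v) (Real.pi - angle u v) := by
  have hset : {θ : ℝ | ∃ u' v' : EuclideanSpace ℝ (Fin n), u' ≠ 0 ∧ v' ≠ 0 ∧
      u' ∈ (Projectivization.mk ℝ u hu).submodule ∧
      v' ∈ (Projectivization.mk ℝ v hv).submodule ∧ θ = angle u' v'}
      = {angle u v, Real.pi - angle u v} := by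
    ext θ
    simp only [mem_setOf_eq, Projectivization.submodule_mk, Submodule.mem_span_singleton,
      mem_insert_iff, mem_singleton_iff]
    constructor
    · rintro ⟨u', v', hu', hv', ⟨a, rfl⟩, ⟨b, rfl⟩, rfl⟩
      have ha : a ≠ 0 := fun h => hu' (by rw [h, zero_smul])
      have hb : b ≠ 0 := fun h => hv' (by rw [h, zero_smul])
      rcases lt_or_gt_of_ne ha with ha | ha <;> rcases lt_or_gt_of_ne hb with hb | hb
      · left
        rw [angle_smul_left_of_neg _ _ ha, angle_smul_right_of_neg _ _ hb, angle_neg_neg]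
      · right
        rw [angle_smul_left_of_neg _ _ ha, angle_smul_right_of_pos _ _ hb, angle_neg_left]
      · right
        rw [angle_smul_left_of_pos _ _ ha, angle_smul_right_of_neg _ _ hb, angle_neg_right]
      · left
        rw [angle_smul_left_of_pos _ _ ha, angle_smul_right_of_pos _ _ hb]
    · rintro (rfl | rfl)
      · exact ⟨u, v, hu, hv, ⟨1, one_smul _ _⟩, ⟨1, one_smul _ _⟩, rfl⟩
      · exact ⟨-u, v, neg_ne_zero.mpr hu, hv, ⟨-1, by simp⟩, ⟨1, one_smul _ _⟩,
          (angle_neg_left _ _).symm⟩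
  rw [ellipticDist, hset, csInf_pair]

lemma ellipticDist_eq_pi_div_two_iff (u v : EuclideanSpace ℝ (Fin n)) (hu : u ≠ 0) (hv : v ≠ 0) :
    ellipticDist (Projectivization.mk ℝ u hu) (Projectivization.mk ℝ v hv) = Real.pi / 2 ↔
      inner ℝ u v = 0 := by
  rw [ellipticDist_mk, inner_eq_zero_iff_angle_eq_pi_div_two]
  constructor
  · intro h
    rcases min_choice (angle u v) (Real.pi - angle u v) with h1 | h1
    · rw [h1] at h; exact h
    · rw [h1] at h; linarith
  · intro h
    rw [h]
    rw [min_eq_left]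
    linarith

/-- The function on vectors attached to a map on lines. -/
noncomputable def onVec (φ : EllipticSpace n → EuclideanSpace ℝ (Fin m)) :
    EuclideanSpace ℝ (Fin n) → EuclideanSpace ℝ (Fin m) := by
  classical
  exact fun v => if h : v ≠ 0 then φ (Projectivization.mk ℝ v h) else 0

lemma onVec_of_ne (φ : EllipticSpace n → EuclideanSpace ℝ (Fin m)) {v : EuclideanSpace ℝ (Fin n)}
    (h : v ≠ 0) : onVec φ v = φ (Projectivization.mk ℝ v h) := by
  unfold onVec
  exact dif_pos h

lemma onVec_continuousAt {φ : EllipticSpace n → EuclideanSpace ℝ (Fin m)}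
    (hφ : IsContinuousMap φ) {v : EuclideanSpace ℝ (Fin n)} (hv : v ≠ 0) :
    ContinuousAt (onVec φ) v := by
  rw [Metric.continuousAt_iff]
  intro ε hε
  obtain ⟨δ, hδ, h⟩ := hφ (Projectivization.mk ℝ v hv) ε hε
  have h1 : ContinuousAt (fun w => angle v w) v :=
    ContinuousAt.comp (g := fun y : EuclideanSpace ℝ (Fin n) × EuclideanSpace ℝ (Fin n) =>
      angle y.1 y.2) (f := fun w => (v, w)) (continuousAt_angle (x := (v, v)) hv hv) (by fun_prop)
  have h2 : ∀ᶠ w in 𝓝 v, angle v w < δ := by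
    apply h1.eventually_lt continuousAt_const
    rw [angle_self hv]
    exact hδ
  have h3 : ∀ᶠ w in 𝓝 v, w ≠ 0 := continuousAt_id.eventually_ne hv
  obtain ⟨r, hr, hball⟩ := Metric.eventually_nhds_iff.mp (h2.and h3)
  refine ⟨r, hr, fun w hw => ?_⟩
  obtain ⟨h4, h5⟩ := hball hw
  rw [onVec_of_ne φ hv, onVec_of_ne φ h5, dist_comm]
  apply h
  rw [ellipticDist_mk]
  exact lt_of_le_of_lt (min_le_left _ _) h4

lemma range_eq (φ : EllipticSpace n → EuclideanSpace ℝ (Fin m)) :
    range φ = onVec φ '' sphere 0 1 := by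
  ext w
  constructor
  · rintro ⟨x, rfl⟩
    induction x using Projectivization.ind with
    | h v hv =>
      have hn : ‖v‖ ≠ 0 := norm_ne_zero_iff.mpr hv
      refine ⟨‖v‖⁻¹ • v, ?_, ?_⟩
      · rw [mem_sphere_zero_iff_norm, norm_smul, norm_inv, norm_norm, inv_mul_cancel₀ hn]
      · have h1 : ‖v‖⁻¹ • v ≠ 0 := smul_ne_zero (inv_ne_zero hn) hv
        rw [onVec_of_ne φ h1]
        congr 1
        rw [Projectivization.mk_eq_mk_iff']
        exact ⟨‖v‖⁻¹, rfl⟩
  · rintro ⟨v, hv, rfl⟩
    have hv0 : v ≠ 0 := by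
      intro h0
      rw [h0, mem_sphere_zero_iff_norm, norm_zero] at hv
      exact zero_ne_one hv
    exact ⟨_, (onVec_of_ne φ hv0).symm⟩

lemma isBounded_range {φ : EllipticSpace n → EuclideanSpace ℝ (Fin m)} (hφ : IsContinuousMap φ) :
    Bornology.IsBounded (range φ) := by
  rw [range_eq]
  apply IsCompact.isBounded
  apply (isCompact_sphere 0 1).image_of_continuousOn
  intro v hv
  have hv0 : v ≠ 0 := by
    intro h0
    rw [h0, mem_sphere_zero_iff_norm, norm_zero] at hv
    exact zero_ne_one hv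
  exact (onVec_continuousAt hφ hv0).continuousWithinAt

lemma diamData {φ : EllipticSpace n → EuclideanSpace ℝ (Fin m)} (hφ : IsContinuousMap φ)
    (hd : PreservesDiameters φ) : DiamData (onVec φ) (Metric.diam (range φ)) where
  cont := fun x hx => onVec_continuousAt hφ hx
  scale := by
    intro c x hc hx
    rw [onVec_of_ne φ hx, onVec_of_ne φ (smul_ne_zero hc hx)]
    congr 1
    rw [Projectivization.mk_eq_mk_iff']
    exact ⟨c, rfl⟩
  le := by
    intro x y hx hy
    rw [onVec_of_ne φ hx, onVec_of_ne φ hy, ← dist_eq_norm]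
    exact Metric.dist_le_diam_of_mem (isBounded_range hφ) ⟨_, rfl⟩ ⟨_, rfl⟩
  eq_iff := by
    intro x y hx hy
    rw [onVec_of_ne φ hx, onVec_of_ne φ hy, hd, ellipticDist_eq_pi_div_two_iff]

/-- The lower bound for `M(n)`. -/
theorem elliptic_lower (hn : 2 ≤ n) {φ : EllipticSpace n → EuclideanSpace ℝ (Fin m)}
    (hφ : IsContinuousMap φ) (hd : PreservesDiameters φ) : n * (n + 1) / 2 ≤ m + 1 := by
  have := exact_lower (diamData hφ hd) (by simpa using hn)
  simpa using this

end Pool.Agent.Lib.MP_cd78f9_gt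
end

section

open Set Metric Topology Module InnerProductGeometry

namespace Pool.Agent.Lib.MP_cd78f9_gt

variable {n : ℕ}

/-- The space of all `n × n` matrices with the Frobenius norm. -/
abbrev Mat (n : ℕ) := EuclideanSpace ℝ (Fin n × Fin n)

/-- Symmetric matrices. -/
def symm (n : ℕ) : Submodule ℝ (Mat n) where
  carrier := {A | ∀ i j, A (i, j) = A (j, i)}
  add_mem' := by
    intro A B hA hB i j
    simp [hA i j, hB i j]
  zero_mem' := by intro i j; simp
  smul_mem' := by
    intro c A hA i j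
    simp [hA i j]

/-- The trace. -/
noncomputable def tr (n : ℕ) : Mat n →ₗ[ℝ] ℝ where
  toFun := fun A => ∑ i, A (i, i)
  map_add' := by intro A B; simp [Finset.sum_add_distrib]
  map_smul' := by intro c A; simp [Finset.mul_sum]

/-- Traceless symmetric matrices. -/
noncomputable def symm0 (n : ℕ) : Submodule ℝ (Mat n) := symm n ⊓ LinearMap.ker (tr n)

lemma finrank_symm_le (n : ℕ) : finrank ℝ (symm n) ≤ n * (n + 1) / 2 := by
  classical
  let f : symm n →ₗ[ℝ] (Sym2 (Fin n) → ℝ) :=
    { toFun := fun A s => (A : Mat n) s.out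
      map_add' := by intro A B; rfl
      map_smul' := by intro c A; rfl }
  have hinj : Function.Injective f := by
    intro A B hAB
    apply Subtype.ext
    ext ⟨i, j⟩
    have h1 : (A : Mat n) (s(i, j) : Sym2 (Fin n)).out = (B : Mat n) (s(i, j) : Sym2 (Fin n)).out :=
      congrFun hAB s(i, j)
    have h2 : (s(i, j) : Sym2 (Fin n)).out = (i, j) ∨ (s(i, j) : Sym2 (Fin n)).out = (j, i) := by
      have h3 : s((s(i, j) : Sym2 (Fin n)).out.1, (s(i, j) : Sym2 (Fin n)).out.2) = s(i, j) :=
        Quot.out_eq _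
      rcases Sym2.eq_iff.mp h3 with h4 | h4
      · exact Or.inl (Prod.ext h4.1 h4.2)
      · exact Or.inr (Prod.ext h4.1 h4.2)
    rcases h2 with h2 | h2
    · rwa [h2] at h1
    · rw [h2] at h1
      rw [A.2 i j, B.2 i j]
      exact h1
  have h1 := LinearMap.finrank_le_finrank_of_injective hinj
  have h2 : finrank ℝ (Sym2 (Fin n) → ℝ) = n * (n + 1) / 2 := by
    rw [Module.finrank_fintype_fun_eq_card, Sym2.card, Fintype.card_fin, Nat.choose_two_right]
    rw [Nat.add_sub_cancel, mul_comm]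
  rw [h2] at h1
  exact h1

lemma finrank_symm0_lt (hn : 2 ≤ n) : finrank ℝ (symm0 n) < n * (n + 1) / 2 := by
  classical
  refine lt_of_lt_of_le ?_ (finrank_symm_le n)
  apply Submodule.finrank_lt_finrank_of_lt
  refine lt_of_le_of_ne inf_le_left ?_
  intro heq
  set I : Mat n := WithLp.toLp 2 (fun p : Fin n × Fin n => if p.1 = p.2 then (1:ℝ) else 0) with hI
  have h1 : I ∈ symm n := by
    intro i j
    simp [hI, eq_comm]
  rw [← heq] at h1
  have h2 : tr n I = 0 := h1.2
  have h3 : tr n I = n := by simp [tr, hI]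
  rw [h3] at h2
  have : n = 0 := by exact_mod_cast h2
  omega

/-- An isometric embedding of the traceless symmetric matrices. -/
lemma exists_isometry {m : ℕ} (hm : finrank ℝ (symm0 n) ≤ m) :
    ∃ f : symm0 n →ₗᵢ[ℝ] EuclideanSpace ℝ (Fin m), True := by
  classical
  let b := stdOrthonormalBasis ℝ (symm0 n)
  let g : symm0 n →ₗ[ℝ] EuclideanSpace ℝ (Fin m) :=
    b.toBasis.constr ℝ (fun i => EuclideanSpace.single (Fin.castLE hm i) (1:ℝ))
  refine ⟨g.isometryOfOrthonormal (v := b.toBasis) ?_ ?_, trivial⟩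
  · simpa using b.orthonormal
  · have : (g ∘ b.toBasis : _ → _) = fun i => EuclideanSpace.single (Fin.castLE hm i) (1:ℝ) := by
      ext i
      simp only [g, Function.comp_apply, Module.Basis.constr_basis]
    rw [this]
    have h1 : Orthonormal ℝ (fun i : Fin m => EuclideanSpace.single i (1:ℝ)) :=
      EuclideanSpace.orthonormal_single
    exact h1.comp _ (Fin.castLE_injective hm)

/-- The Veronese map. -/
noncomputable def ver (u : EuclideanSpace ℝ (Fin n)) : Mat n :=
  WithLp.toLp 2 (fun p : Fin n × Fin n => u p.1 * u p.2 / ‖u‖ ^ 2)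

lemma inner_ver (u v : EuclideanSpace ℝ (Fin n)) :
    inner ℝ (ver u) (ver v) = (inner ℝ u v / (‖u‖ * ‖v‖)) ^ 2 := by
  have h1 : inner ℝ (ver u) (ver v) = ∑ p : Fin n × Fin n,
      (u p.1 * u p.2 / ‖u‖ ^ 2) * (v p.1 * v p.2 / ‖v‖ ^ 2) := by
    rw [PiLp.inner_apply]
    apply Finset.sum_congr rfl
    intro p _
    simp [ver, mul_comm]
  have h2 : inner ℝ u v = ∑ i, u i * v i := by
    rw [PiLp.inner_apply]
    apply Finset.sum_congr rfl
    intro p _
    simp [mul_comm]
  rw [h1, h2, div_pow, mul_pow, sq (∑ i, u i * v i), Finset.sum_mul_sum, Fintype.sum_prod_type,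
    Finset.sum_div]
  apply Finset.sum_congr rfl
  intro i _
  rw [Finset.sum_div]
  apply Finset.sum_congr rfl
  intro j _
  simp only
  rw [div_mul_div_comm]
  congr 1
  ring

lemma ver_smul (u : EuclideanSpace ℝ (Fin n)) {c : ℝ} (hc : c ≠ 0) : ver (c • u) = ver u := by
  ext p
  simp only [ver, PiLp.smul_apply, smul_eq_mul, norm_smul, Real.norm_eq_abs, mul_pow, sq_abs]
  rw [show c * u.ofLp p.1 * (c * u.ofLp p.2) = c ^ 2 * (u.ofLp p.1 * u.ofLp p.2) by ring]
  exact mul_div_mul_left _ _ (pow_ne_zero 2 hc)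

lemma ver_sub_mem (u v : EuclideanSpace ℝ (Fin n)) (hu : u ≠ 0) (hv : v ≠ 0) :
    ver u - ver v ∈ symm0 n := by
  have htr : ∀ w : EuclideanSpace ℝ (Fin n), w ≠ 0 → tr n (ver w) = 1 := by
    intro w hw
    simp only [tr, ver, LinearMap.coe_mk, AddHom.coe_mk]
    rw [← Finset.sum_div, EuclideanSpace.norm_sq_eq]
    simp only [Real.norm_eq_abs, sq_abs, ← sq]
    apply div_self
    have h1 : ∑ i, w i ^ 2 = ‖w‖ ^ 2 := by
      rw [EuclideanSpace.norm_sq_eq]; simp
    rw [h1]
    have := norm_pos_iff.mpr hw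
    positivity
  refine ⟨?_, ?_⟩
  · intro i j
    simp only [ver, PiLp.sub_apply]
    ring
  · have h1 := htr u hu
    have h2 := htr v hv
    change tr n (ver u - ver v) = 0
    rw [map_sub, h1, h2, sub_self]

lemma norm_ver_sub_sq (u v : EuclideanSpace ℝ (Fin n)) (hu : u ≠ 0) (hv : v ≠ 0) :
    ‖ver u - ver v‖ ^ 2 = 2 - 2 * (inner ℝ u v / (‖u‖ * ‖v‖)) ^ 2 := by
  have h1 : ∀ w : EuclideanSpace ℝ (Fin n), w ≠ 0 → ‖ver w‖ ^ 2 = 1 := by
    intro w hw
    rw [← real_inner_self_eq_norm_sq, inner_ver, real_inner_self_eq_norm_sq]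
    have := norm_pos_iff.mpr hw
    field_simp
  rw [norm_sub_sq_real, h1 u hu, h1 v hv, inner_ver]
  ring

/-- The Veronese embedding of the elliptic space into the traceless symmetric matrices (based at a
fixed point), composed with an isometry `f`. -/
lemma exists_veronese (hn : 2 ≤ n) :
    ∃ φ : EllipticSpace n → EuclideanSpace ℝ (Fin (n * (n + 1) / 2 - 1)),
      IsContinuousMap φ ∧ PreservesDiameters φ := by
  classical
  obtain ⟨f, -⟩ := exists_isometry (n := n) (m := n * (n + 1) / 2 - 1)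
    (by have := finrank_symm0_lt hn; omega)
  let i0 : Fin n := ⟨0, by omega⟩
  let i1 : Fin n := ⟨1, by omega⟩
  set e0 : EuclideanSpace ℝ (Fin n) := EuclideanSpace.single i0 1 with he0
  set e1 : EuclideanSpace ℝ (Fin n) := EuclideanSpace.single i1 1 with he1
  have h0 : e0 ≠ 0 := by
    intro h
    have := congrFun (congrArg WithLp.ofLp h) i0
    simp [he0] at this
  have h1 : e1 ≠ 0 := by
    intro h
    have := congrFun (congrArg WithLp.ofLp h) i1
    simp [he1] at this
  have h01 : inner ℝ e0 e1 = 0 := by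
    simp [he0, he1, i0, i1, EuclideanSpace.inner_single_left]
  let φ : EllipticSpace n → EuclideanSpace ℝ (Fin (n * (n + 1) / 2 - 1)) := fun x =>
    f ⟨ver x.rep - ver e0, ver_sub_mem _ _ x.rep_nonzero h0⟩
  have hφ : ∀ (u v : EuclideanSpace ℝ (Fin n)) (hu : u ≠ 0) (hv : v ≠ 0),
      ‖φ (Projectivization.mk ℝ u hu) - φ (Projectivization.mk ℝ v hv)‖ ^ 2
        = 2 - 2 * (inner ℝ u v / (‖u‖ * ‖v‖)) ^ 2 := by
    intro u v hu hv
    have hrep : ∀ (w : EuclideanSpace ℝ (Fin n)) (hw : w ≠ 0),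
        ver (Projectivization.mk ℝ w hw).rep = ver w := by
      intro w hw
      obtain ⟨a, ha⟩ := Projectivization.exists_smul_eq_mk_rep ℝ w hw
      rw [← ha]
      exact ver_smul w a.ne_zero
    rw [← norm_ver_sub_sq u v hu hv]
    simp only [φ]
    rw [← map_sub, f.norm_map]
    have h2 : ∀ (a b : symm0 n), ‖a - b‖ = ‖(a : Mat n) - (b : Mat n)‖ := fun a b => rfl
    rw [h2]
    simp only [hrep, sub_sub_sub_cancel_right]
  -- distances are at most `√2`
  have hle : ∀ x y, ‖φ x - φ y‖ ≤ Real.sqrt 2 := by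
    intro x y
    induction x using Projectivization.ind with
    | h u hu =>
      induction y using Projectivization.ind with
      | h v hv =>
        apply Real.le_sqrt_of_sq_le
        rw [hφ]
        have := sq_nonneg (inner ℝ u v / (‖u‖ * ‖v‖))
        linarith
  have hiff : ∀ (u v : EuclideanSpace ℝ (Fin n)) (hu : u ≠ 0) (hv : v ≠ 0),
      ‖φ (Projectivization.mk ℝ u hu) - φ (Projectivization.mk ℝ v hv)‖ = Real.sqrt 2 ↔
        inner ℝ u v = 0 := by
    intro u v hu hv
    have hpos : 0 < ‖u‖ * ‖v‖ := mul_pos (norm_pos_iff.mpr hu) (norm_pos_iff.mpr hv)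
    rw [← sq_eq_sq₀ (norm_nonneg _) (Real.sqrt_nonneg _), hφ, Real.sq_sqrt (by norm_num)]
    constructor
    · intro h
      have h2 : (inner ℝ u v / (‖u‖ * ‖v‖)) ^ 2 = 0 := by linarith
      have h3 := pow_eq_zero_iff (two_ne_zero) |>.mp h2
      exact (div_eq_zero_iff.mp h3).resolve_right hpos.ne'
    · intro h
      rw [h]; simp
  have hbdd : Bornology.IsBounded (range φ) := by
    rw [Metric.isBounded_iff]
    refine ⟨Real.sqrt 2, ?_⟩
    rintro _ ⟨x, rfl⟩ _ ⟨y, rfl⟩
    rw [dist_eq_norm]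
    exact hle x y
  have hdiam : Metric.diam (range φ) = Real.sqrt 2 := by
    apply le_antisymm
    · apply Metric.diam_le_of_forall_dist_le (Real.sqrt_nonneg _)
      rintro _ ⟨x, rfl⟩ _ ⟨y, rfl⟩
      rw [dist_eq_norm]
      exact hle x y
    · rw [← (hiff e0 e1 h0 h1).mpr h01, ← dist_eq_norm]
      exact Metric.dist_le_diam_of_mem hbdd ⟨_, rfl⟩ ⟨_, rfl⟩
  refine ⟨φ, ?_, ?_⟩
  · -- continuity
    have hlip : ∀ x y, 0 ≤ ellipticDist x y ∧ dist (φ x) (φ y) ≤ 2 * ellipticDist x y := by
      intro x y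
      induction x using Projectivization.ind with
      | h u hu =>
        induction y using Projectivization.ind with
        | h v hv =>
          rw [ellipticDist_mk]
          set θ := min (angle u v) (Real.pi - angle u v) with hθ
          have hθ0 : 0 ≤ θ := le_min (angle_nonneg _ _) (sub_nonneg.mpr (angle_le_pi _ _))
          have hcos : Real.cos θ ^ 2 = (inner ℝ u v / (‖u‖ * ‖v‖)) ^ 2 := by
            rcases min_choice (angle u v) (Real.pi - angle u v) with h | h
            · rw [hθ, h, cos_angle]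
            · rw [hθ, h, Real.cos_pi_sub, cos_angle, neg_sq]
          refine ⟨hθ0, ?_⟩
          rw [dist_eq_norm]
          apply le_of_sq_le_sq _ (by positivity)
          rw [hφ, ← hcos]
          have h2 : Real.sin θ ^ 2 ≤ θ ^ 2 := by
            have := Real.sin_le hθ0
            have h3 : |Real.sin θ| ≤ |θ| := Real.abs_sin_le_abs 
            exact sq_le_sq' (by rw [abs_of_nonneg hθ0] at h3; exact (abs_le.mp h3).1) this
          have h3 := Real.sin_sq_add_cos_sq θ
          nlinarith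
    intro x ε hε
    refine ⟨ε / 2, by positivity, fun y hy => ?_⟩
    have := (hlip x y).2
    linarith
  · intro x y
    rw [hdiam]
    induction x using Projectivization.ind with
    | h u hu =>
      induction y using Projectivization.ind with
      | h v hv =>
        rw [hiff, ellipticDist_eq_pi_div_two_iff]

end Pool.Agent.Lib.MP_cd78f9_gt
end
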